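import Pool.Agent.MP_22519f_co.Main

set_option autoImplicit false
open scoped ENNReal
open Pool.Agent.MP_22519f_co

/-- A counterexample to Q1. -/
theorem Pool.Agent.Results.MP_22519f_co.FigureEight.result :
    ∃ (k n : ℕ) (E : Fin n → Fin n → Prop) (h : Fin n → ℕ),
      (∀ v, ¬ E v v) ∧
      (∀ u v, Relation.ReflTransGen E u v) ∧
      ¬ IsTrivial E ∧
      (∀ S, Redundant E Set.univ S → S = ∅) ∧
      (∀ v, 2 ≤ h v) ∧ (∀ v, k ≤ h v) ∧ (∃ v, h v ≠ k) ∧
      Winnable E (fun _ => 1) h ∧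
      (∀ v₀, ¬ Winnable (fun u w : {v // v ≠ v₀} => E u.1 w.1) (fun _ => 1) (fun u => h u.1)) ∧
      fracHat E = (k : ℝ≥0∞) :=
  ⟨2, 5, E8, h8, by decide, strongly_connected, not_trivial, no_redundant, by decide, by decide,
    by decide, latvian_win, critical, fracHat_eq⟩
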